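import Pool.Agent.helper35.OT.Spec

/-!
# Project OT, row FLD: field theory
-/

set_option autoImplicit false

namespace Pool.Agent.helper35.OT

open Finset Polynomial
open scoped RatFunc LaurentSeries

/-- the embedding of the power series into the Laurent series -/
noncomputable def FLD_i : PowerSeries ℚ →+* LaurentSeries ℚ := HahnSeries.ofPowerSeries ℤ ℚ

lemma FLD_inj : Function.Injective FLD_i := HahnSeries.ofPowerSeries_injective

lemma FLD_alg (p : Polynomial ℚ) :
    FLD_i (p : PowerSeries ℚ) = algebraMap (Polynomial ℚ) (LaurentSeries ℚ) p := by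
  rw [IsScalarTower.algebraMap_apply (Polynomial ℚ) (RatFunc ℚ) (LaurentSeries ℚ)]
  exact RatFunc.coe_coe p

lemma FLD_ev (P : Polynomial (Polynomial ℚ)) (g : PowerSeries ℚ) :
    FLD_i (ev P g) = aeval (FLD_i g) P := by
  rw [ev, hom_eval₂, aeval_def]
  congr 1

lemma FLD_aev (P : Polynomial (Polynomial ℚ)) (G : LaurentSeries ℚ) :
    aeval G (P.map (algebraMap (Polynomial ℚ) (RatFunc ℚ))) = aeval G P :=
  aeval_map_algebraMap (RatFunc ℚ) G P

/-- clearing denominators -/
lemma FLD_clear (p : Polynomial (RatFunc ℚ)) : ∃ b : Polynomial ℚ, b ≠ 0 ∧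
    ∃ B : Polynomial (Polynomial ℚ), B.map (algebraMap (Polynomial ℚ) (RatFunc ℚ)) = b • p := by
  obtain ⟨b, hb1, hb⟩ := IsLocalization.integerNormalization_spec (nonZeroDivisors (Polynomial ℚ)) p
  exact ⟨b, nonZeroDivisors.ne_zero hb1, _, hb⟩

lemma FLD_mapne (P : Polynomial (Polynomial ℚ)) (hP : P ≠ 0) :
    P.map (algebraMap (Polynomial ℚ) (RatFunc ℚ)) ≠ 0 := by
  intro h
  refine hP (Polynomial.map_injective _ (IsFractionRing.injective (Polynomial ℚ) (RatFunc ℚ)) ?_)
  rw [h, Polynomial.map_zero]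

theorem FLD : FLD_stmt := by
  intro g h c L hc hh hP hQ
  have hGal : IsIntegral (RatFunc ℚ) (FLD_i g) := by
    obtain ⟨P, hP0, hP1⟩ := hP
    rw [← isAlgebraic_iff_isIntegral]
    refine ⟨P.map (algebraMap (Polynomial ℚ) (RatFunc ℚ)), FLD_mapne P hP0, ?_⟩
    rw [FLD_aev, ← FLD_ev, hP1, map_zero]
  -- h is in K(g)
  have hH : FLD_i h = (algebraMap (Polynomial ℚ) (LaurentSeries ℚ) (C c⁻¹)) *
      ((FLD_i g) ^ 2 - algebraMap (Polynomial ℚ) (LaurentSeries ℚ) L) := by
    rw [← FLD_alg, ← FLD_alg, ← map_pow, ← map_sub, ← hh, ← map_mul]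
    congr 1
    rw [← mul_assoc, Polynomial.coe_C, ← map_mul, inv_mul_cancel₀ hc, map_one, one_mul]
  have hHmem : FLD_i h ∈ IntermediateField.adjoin (RatFunc ℚ) {FLD_i g} := by
    rw [hH, IsScalarTower.algebraMap_apply (Polynomial ℚ) (RatFunc ℚ) (LaurentSeries ℚ),
      IsScalarTower.algebraMap_apply (Polynomial ℚ) (RatFunc ℚ) (LaurentSeries ℚ)]
    exact mul_mem (IntermediateField.algebraMap_mem _ _)
      (sub_mem (pow_mem (IntermediateField.mem_adjoin_simple_self _ _) 2)
        (IntermediateField.algebraMap_mem _ _))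
  have hle : IntermediateField.adjoin (RatFunc ℚ) {FLD_i h}
      ≤ IntermediateField.adjoin (RatFunc ℚ) {FLD_i g} := by
    rw [IntermediateField.adjoin_simple_le_iff]
    exact hHmem
  have hfin : FiniteDimensional (RatFunc ℚ) (IntermediateField.adjoin (RatFunc ℚ) {FLD_i g}) :=
    IntermediateField.adjoin.finiteDimensional hGal
  have hHal : IsIntegral (RatFunc ℚ) (FLD_i h) := by
    rw [hH, IsScalarTower.algebraMap_apply (Polynomial ℚ) (RatFunc ℚ) (LaurentSeries ℚ),
      IsScalarTower.algebraMap_apply (Polynomial ℚ) (RatFunc ℚ) (LaurentSeries ℚ)]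
    exact isIntegral_algebraMap.mul ((hGal.pow 2).sub isIntegral_algebraMap)
  -- degrees
  have hdeg : (minpoly (RatFunc ℚ) (FLD_i g)).natDegree ≤ (minpoly (RatFunc ℚ) (FLD_i h)).natDegree := by
    obtain ⟨b, hb, Q, hQm⟩ := FLD_clear (minpoly (RatFunc ℚ) (FLD_i h))
    have hb' : (algebraMap (Polynomial ℚ) (RatFunc ℚ)) b ≠ 0 := by
      intro h0
      exact hb (IsFractionRing.injective (Polynomial ℚ) (RatFunc ℚ) (by rw [h0, map_zero]))
    have hsm : b • (minpoly (RatFunc ℚ) (FLD_i h))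
        = C ((algebraMap (Polynomial ℚ) (RatFunc ℚ)) b) * (minpoly (RatFunc ℚ) (FLD_i h)) := by
      rw [← algebraMap_smul (RatFunc ℚ) b, Polynomial.smul_eq_C_mul]
    have hQ0 : Q ≠ 0 := by
      intro h0
      rw [h0, Polynomial.map_zero, hsm] at hQm
      exact mul_ne_zero (C_ne_zero.mpr hb') (minpoly.ne_zero hHal) hQm.symm
    have hQd : Q.natDegree = (minpoly (RatFunc ℚ) (FLD_i h)).natDegree := by
      rw [← Polynomial.natDegree_map_eq_of_injective
        (IsFractionRing.injective (Polynomial ℚ) (RatFunc ℚ)) Q, hQm, hsm,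
        Polynomial.natDegree_C_mul hb']
    have hQe : ev Q h = 0 := by
      refine FLD_inj ?_
      rw [FLD_ev, ← FLD_aev, hQm, hsm, map_mul, minpoly.aeval, mul_zero, map_zero]
    obtain ⟨P, hP0, hPd, hPe⟩ := hQ Q hQ0 hQe
    have h2 := minpoly.degree_le_of_ne_zero (RatFunc ℚ) (FLD_i g) (FLD_mapne P hP0)
      (by rw [FLD_aev, ← FLD_ev, hPe, map_zero])
    have h3 := Polynomial.natDegree_le_natDegree h2
    rw [Polynomial.natDegree_map_eq_of_injective
      (IsFractionRing.injective (Polynomial ℚ) (RatFunc ℚ)) P] at h3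
    omega
  have heq : IntermediateField.adjoin (RatFunc ℚ) {FLD_i h}
      = IntermediateField.adjoin (RatFunc ℚ) {FLD_i g} := by
    refine IntermediateField.eq_of_le_of_finrank_le hle ?_
    rw [IntermediateField.adjoin.finrank hGal, IntermediateField.adjoin.finrank hHal]
    exact hdeg
  have hGmem : FLD_i g ∈ IntermediateField.adjoin (RatFunc ℚ) {FLD_i h} := by
    rw [heq]
    exact IntermediateField.mem_adjoin_simple_self _ _
  have hGmem2 : FLD_i g ∈ (IntermediateField.adjoin (RatFunc ℚ) {FLD_i h}).toSubalgebra := hGmem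
  rw [IntermediateField.adjoin_simple_toSubalgebra_of_isAlgebraic hHal.isAlgebraic,
    Algebra.adjoin_singleton_eq_range_aeval] at hGmem2
  obtain ⟨p, hp⟩ := hGmem2
  have hp' : aeval (FLD_i h) p = FLD_i g := hp
  obtain ⟨b, hb, B, hB⟩ := FLD_clear p
  refine ⟨b, hb, B, ?_⟩
  refine FLD_inj ?_
  have hsm : b • p = C ((algebraMap (Polynomial ℚ) (RatFunc ℚ)) b) * p := by
    rw [← algebraMap_smul (RatFunc ℚ) b, Polynomial.smul_eq_C_mul]
  rw [FLD_ev, ← FLD_aev, hB, hsm, map_mul FLD_i, map_mul (aeval (FLD_i h)), hp', aeval_C, FLD_alg,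
    ← IsScalarTower.algebraMap_apply]

end Pool.Agent.helper35.OT
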