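import Mathlib
import Pool.Agent.helper64.OT.SpecI

/-!
# Project OT, row TRL (MP_f6e9a2_nt): the theorem for hosts which are only locally structured
-/

set_option autoImplicit false

namespace Pool.Agent.OL

open Finset Pool.Agent.OT Pool.Agent.SPI Pool.Agent.helper85.PG
open scoped Pointwise

private lemma TRL_large (ε C : ℝ) (hε : 0 < ε) : ∃ p₁ : ℕ, ∀ p : ℕ, p₁ < p → C < (p : ℝ) ^ ε := by
  have h1 := (tendsto_rpow_atTop hε).comp (tendsto_natCast_atTop_atTop (R := ℝ))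
  obtain ⟨p₁, hp₁⟩ := Filter.eventually_atTop.1 (h1.eventually (Filter.eventually_gt_atTop C))
  exact ⟨p₁, fun p hp => hp₁ p hp.le⟩

theorem TRL (hFRE : FRE_stmt) (hAPC : APC_stmt) (hDIL : DIL_stmt) : TRL_stmt := by
  intro K ε hε
  obtain ⟨d, C, hC1, hF⟩ := hFRE K
  have hC0 : (0 : ℝ) < C := by linarith
  have hd0 : (0 : ℝ) ≤ d := Nat.cast_nonneg _
  have hd1 : (0 : ℝ) < 2 * ((d : ℝ) + 1) := by positivity
  obtain ⟨κ, hκ, hκ4, hκd⟩ : ∃ κ : ℝ, 0 < κ ∧ κ ≤ 1 / 4 ∧ κ * d ≤ ε / 2 := by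
    refine ⟨min (1 / 4) (ε / (2 * ((d : ℝ) + 1))), lt_min (by norm_num) (div_pos hε hd1), min_le_left _ _, ?_⟩
    calc min (1 / 4) (ε / (2 * ((d : ℝ) + 1))) * d ≤ ε / (2 * ((d : ℝ) + 1)) * d :=
          mul_le_mul_of_nonneg_right (min_le_right _ _) hd0
      _ ≤ ε / 2 := by
        rw [div_mul_eq_mul_div, div_le_div_iff₀ hd1 (by norm_num)]
        nlinarith
  obtain ⟨c, p₀, hc, hD⟩ := hDIL κ ε hκ hκ4 hε
  obtain ⟨p₁, hp₁⟩ := TRL_large (ε / 2) (3 ^ d * C) (by linarith)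
  obtain ⟨p₂, hp₂⟩ := TRL_large (c / 2) (2 * 5 ^ d * C ^ 2) (by linarith)
  refine ⟨c / 2, max p₀ (max p₁ p₂), by linarith, fun p _ hp χ X Y Z V β hχ hβ hdbl hV hZV hXZ hcase => ?_⟩
  have hpA : p₀ < p := lt_of_le_of_lt (le_max_left _ _) hp
  have hpB : p₁ < p := lt_of_le_of_lt ((le_max_left _ _).trans (le_max_right _ _)) hp
  have hpC : p₂ < p := lt_of_le_of_lt ((le_max_right _ _).trans (le_max_right _ _)) hp
  have hL1 := hp₁ p hpB
  have hL2 := hp₂ p hpC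
  have hp1 : (1 : ℝ) < p := by exact_mod_cast (Fact.out : p.Prime).one_lt
  have hp0 : (0 : ℝ) < p := by linarith
  have hpε : 0 < (p : ℝ) ^ ε := Real.rpow_pos_of_pos hp0 _
  have hVne : V.Nonempty := by
    rw [← Finset.card_pos]
    have : (0 : ℝ) < V.card := hpε.trans_le hV
    exact_mod_cast this
  obtain ⟨P, F, hsys, hFC, hP1, hHF⟩ := hF p V hVne hdbl
  -- `|V| ≤ C |P 1|`
  have hVP : (V.card : ℝ) ≤ C * (P 1).card := by
    have h1 : V ⊆ F + P 1 := by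
      intro a ha
      obtain ⟨f, hf, hf1⟩ := hHF a ha
      exact Finset.mem_add.2 ⟨f, hf, a - f, hf1, by ring⟩
    have h2 : V.card ≤ F.card * (P 1).card := (Finset.card_le_card h1).trans Finset.card_add_le
    calc (V.card : ℝ) ≤ F.card * (P 1).card := by exact_mod_cast h2
      _ ≤ C * (P 1).card := mul_le_mul_of_nonneg_right hFC (Nat.cast_nonneg _)
  -- the length of the progression
  obtain ⟨h, hh⟩ : ∃ h : ℕ, h = ⌊(p : ℝ) ^ κ⌋₊ := ⟨_, rfl⟩
  have hpκ : 1 ≤ (p : ℝ) ^ κ := Real.one_le_rpow hp1.le hκ.le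
  have hhκ : (h : ℝ) ≤ (p : ℝ) ^ κ := by
    rw [hh]
    exact Nat.floor_le (by linarith)
  have hh1 : 0 < h := by
    rw [hh]
    exact Nat.floor_pos.2 hpκ
  have hhp : h < p := by
    have h1 : (p : ℝ) ^ κ < (p : ℝ) ^ (1 : ℝ) := Real.rpow_lt_rpow_of_exponent_lt hp1 (by linarith)
    rw [Real.rpow_one] at h1
    have h2 : (h : ℝ) < p := hhκ.trans_lt h1
    exact_mod_cast h2
  have hbig : (1 + 2 * (h : ℝ)) ^ d < (P 1).card := by
    have h1 : (1 + 2 * (h : ℝ)) ^ d ≤ (3 * (p : ℝ) ^ κ) ^ d :=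
      pow_le_pow_left₀ (by positivity) (by linarith) d
    have h2 : (3 * (p : ℝ) ^ κ) ^ d ≤ 3 ^ d * (p : ℝ) ^ (ε / 2) := by
      rw [mul_pow, ← Real.rpow_natCast ((p : ℝ) ^ κ) d, ← Real.rpow_mul hp0.le]
      exact mul_le_mul_of_nonneg_left (Real.rpow_le_rpow_of_exponent_le hp1.le hκd) (by positivity)
    have h3 : C * (3 ^ d * (p : ℝ) ^ (ε / 2)) < (p : ℝ) ^ ε := by
      have h4 : (p : ℝ) ^ ε = (p : ℝ) ^ (ε / 2) * (p : ℝ) ^ (ε / 2) := by
        rw [← Real.rpow_add hp0]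
        congr 1
        ring
      have h5 : 0 < (p : ℝ) ^ (ε / 2) := Real.rpow_pos_of_pos hp0 _
      rw [h4]
      calc C * (3 ^ d * (p : ℝ) ^ (ε / 2)) = (3 ^ d * C) * (p : ℝ) ^ (ε / 2) := by ring
        _ < (p : ℝ) ^ (ε / 2) * (p : ℝ) ^ (ε / 2) := mul_lt_mul_of_pos_right hL1 h5
    have h6 : C * (1 + 2 * (h : ℝ)) ^ d < C * (P 1).card := by
      calc C * (1 + 2 * (h : ℝ)) ^ d ≤ C * (3 ^ d * (p : ℝ) ^ (ε / 2)) :=
            mul_le_mul_of_nonneg_left (h1.trans h2) hC0.le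
        _ < (p : ℝ) ^ ε := h3
        _ ≤ V.card := hV
        _ ≤ C * (P 1).card := hVP
    exact lt_of_mul_lt_mul_left h6 hC0.le
  obtain ⟨v, T, hv, hT, hTcov⟩ := hAPC p d h P hsys hh1 hhp hbig
  have hT' : (h : ℝ) * (Z + F + T).card ≤ (p : ℝ) ^ (1 / 2 + c) := by
    have h1 : (Z + F + T).card ≤ Z.card * F.card * T.card :=
      Finset.card_add_le.trans (Nat.mul_le_mul_right _ Finset.card_add_le)
    have h2 : ((Z + F + T).card : ℝ) ≤ Z.card * F.card * T.card := by exact_mod_cast h1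
    have hZ0 : (0 : ℝ) ≤ Z.card := Nat.cast_nonneg _
    have hT0 : (0 : ℝ) ≤ T.card := Nat.cast_nonneg _
    have hh0 : (0 : ℝ) ≤ h := Nat.cast_nonneg _
    calc (h : ℝ) * (Z + F + T).card ≤ h * (Z.card * F.card * T.card) := mul_le_mul_of_nonneg_left h2 hh0
      _ ≤ h * (Z.card * C * T.card) :=
          mul_le_mul_of_nonneg_left (mul_le_mul_of_nonneg_right (mul_le_mul_of_nonneg_left hFC hZ0) hT0) hh0
      _ = (Z.card * C) * (T.card * h) := by ring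
      _ ≤ (Z.card * C) * (2 * 5 ^ d * (P 1).card) := mul_le_mul_of_nonneg_left hT (by positivity)
      _ ≤ (Z.card * C) * (2 * 5 ^ d * (C * V.card)) :=
          mul_le_mul_of_nonneg_left (mul_le_mul_of_nonneg_left hP1 (by positivity)) (by positivity)
      _ = (2 * 5 ^ d * C ^ 2) * (Z.card * V.card) := by ring
      _ ≤ (p : ℝ) ^ (c / 2) * (p : ℝ) ^ (1 / 2 + c / 2) :=
          mul_le_mul hL2.le hZV (by positivity) (by positivity)
      _ = (p : ℝ) ^ (1 / 2 + c) := by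
          rw [← Real.rpow_add hp0]
          congr 1
          ring
  have hcov : ∀ x ∈ X, ∃ t ∈ Z + F + T, ∃ n : ℕ, n < h ∧ x = t + (n : ZMod p) * v := by
    intro x hx
    obtain ⟨z, hz, a, ha, hza⟩ := Finset.mem_add.1 (hXZ hx)
    obtain ⟨f, hf, hf1⟩ := hHF a ha
    obtain ⟨t, ht, n, hn, hn1⟩ := hTcov _ hf1
    refine ⟨z + f + t, Finset.add_mem_add (Finset.add_mem_add hz hf) ht, n, hn, ?_⟩
    calc x = z + f + (a - f) := by
          rw [← hza]
          ring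
      _ = z + f + t + (n : ZMod p) * v := by
          rw [hn1]
          ring
  refine (hD p hpA χ h X Y (Z + F + T) v β hχ hβ hv hh hT' hcov hcase).trans ?_
  refine mul_le_mul_of_nonneg_right (Real.rpow_le_rpow_of_exponent_le hp1.le (by linarith)) ?_
  positivity

end Pool.Agent.OL
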